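import Pool.Agent.H42.SlowDefs
import Pool.Agent.H42.Final

namespace Pool.Agent.Results.MP_d2d64b_pr.SlowdownFails

open MeasureTheory Pool.Agent.H42

/-- For every law `ρ` of conductances which is not a point mass and is supported in a compact
subset of `(0, ∞)`, there are an infinite connected graph `G` of bounded degree and a finite set
`W` of vertices, meeting every orbit of the automorphism group, such that the random rooted graph
`(G, o)`, `o` uniform on `W`, is unimodular and has expansion, and such that the speed `vs` of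
simple random walk and the speed `vc` of the random walk among i.i.d. conductances of law `ρ` on
`(G, o)` exist almost surely, are constant, and satisfy `vs < vc`. -/
theorem result (ρ : Measure ℝ) [IsProbabilityMeasure ρ] (ε K : ℝ) (hε : 0 < ε)
    (hsupp : ∀ᵐ r ∂ρ, r ∈ Set.Icc ε K) (hnd : ∀ r : ℝ, ρ ≠ Measure.dirac r) :
    ∃ (V : Type) (G : SimpleGraph V) (W : Finset V),
      Countable V ∧ Infinite V ∧ G.Connected ∧ W.Nonempty ∧
      (∀ x, (G.neighborSet x).Finite) ∧
      (∃ D : ℕ, ∀ x, (G.neighborSet x).ncard ≤ D) ∧
      (∀ x, ∃ φ : G ≃g G, φ x ∈ W) ∧ IsUnimodular G W ∧ HasExpansion G ∧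
      ∃ vs vc : ℝ, HasSpeed G (Measure.dirac 1) W vs ∧ HasSpeed G ρ W vc ∧ vs < vc :=
  main hε hsupp hnd

end Pool.Agent.Results.MP_d2d64b_pr.SlowdownFails
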